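import Pool.Agent.H912R3.Eq.Fin2

/-!
# Ehrhart's volume conjecture for arbitrary lattices, with the cases of equality

`K ⊂ ℝᵈ` is a convex body whose centroid is the origin and whose interior contains no point of the
lattice `L = A ℤᵈ` except the origin. Then `V(K) ≤ (d+1)ᵈ / d! · det L`, with equality if and only
if `K` is the simplex `{∑ yᵢ bᵢ : yᵢ ≥ -1, ∑ yᵢ ≤ 1}` for some basis `b₁, …, b_d` of `L`.
-/

set_option autoImplicit false

namespace Pool.Agent.Results.MP_4c844b_co.EhrhartAllLattices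

open MeasureTheory

/-- The lattice `A ℤᵈ` generated by the columns of the matrix `A`. -/
def lattice {d : ℕ} (A : Matrix (Fin d) (Fin d) ℝ) : Set (Fin d → ℝ) :=
  Set.range fun z : Fin d → ℤ => A.mulVec fun i => (z i : ℝ)

/-- The centroid `V(K)⁻¹ ∫_K x dx`. -/
noncomputable def centroid {d : ℕ} (K : Set (Fin d → ℝ)) : Fin d → ℝ :=
  (volume K).toReal⁻¹ • ∫ x in K, x

/-- The simplex `{y : yᵢ ≥ -1, ∑ yᵢ ≤ 1}`, a translate of `(d+1)` times the standard simplex. -/
def simplex (d : ℕ) : Set (Fin d → ℝ) := {y | (∀ i, -1 ≤ y i) ∧ ∑ i, y i ≤ 1}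

open Pool.Agent.H912R3.Ehr in
/-- The two descriptions of the simplex. -/
theorem mem_simplex_iff {d : ℕ} (y : Fin d → ℝ) :
    y ∈ simplex d ↔ (fun i => y i + 1) ∈ Tx d (d + 1) := by
  constructor
  · rintro ⟨h1, h2⟩
    refine ⟨fun i => by have := h1 i; show 0 ≤ y i + 1; linarith, ?_⟩
    rw [Finset.sum_add_distrib]
    simp only [Finset.sum_const, Finset.card_univ, Fintype.card_fin, nsmul_eq_mul, mul_one]
    linarith
  · rintro ⟨h1, h2⟩
    rw [Finset.sum_add_distrib] at h2
    simp only [Finset.sum_const, Finset.card_univ, Fintype.card_fin, nsmul_eq_mul, mul_one] at h2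
    refine ⟨fun i => ?_, by linarith⟩
    have h3 : 0 ≤ y i + 1 := h1 i
    linarith

/-- an integer matrix as a real matrix -/
noncomputable def re {d : ℕ} (U : Matrix (Fin d) (Fin d) ℤ) : Matrix (Fin d) (Fin d) ℝ :=
  U.map (Int.castRingHom ℝ)

theorem re_mul {d : ℕ} (U W : Matrix (Fin d) (Fin d) ℤ) : re (U * W) = re U * re W := by
  rw [re, re, re, Matrix.map_mul]

theorem re_one {d : ℕ} : re (1 : Matrix (Fin d) (Fin d) ℤ) = 1 := by
  ext a b
  simp [re, Matrix.one_apply]

theorem re_inj {d : ℕ} {U W : Matrix (Fin d) (Fin d) ℤ} (h : re U = re W) : U = W := by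
  ext a b
  have := congrFun (congrFun h a) b
  simpa [re] using this

theorem re_mulVec {d : ℕ} (U : Matrix (Fin d) (Fin d) ℤ) (z : Fin d → ℤ) :
    (re U).mulVec (fun i => (z i : ℝ)) = fun i => ((U.mulVec z i : ℤ) : ℝ) := by
  funext i
  simp [re, Matrix.mulVec, dotProduct]

/-- a sublattice is given by an integer matrix -/
theorem exists_of_subset {d : ℕ} {A B : Matrix (Fin d) (Fin d) ℝ}
    (h : lattice B ⊆ lattice A) : ∃ M : Matrix (Fin d) (Fin d) ℤ, B = A * re M := by
  classical
  have h1 : ∀ j : Fin d, ∃ z : Fin d → ℤ, A.mulVec (fun i => (z i : ℝ)) = fun i => B i j := by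
    intro j
    have h2 : B.mulVec (fun i => (((Pi.single j (1 : ℤ) : Fin d → ℤ) i : ℤ) : ℝ)) ∈ lattice B :=
      ⟨_, rfl⟩
    have h3 : B.mulVec (fun i => (((Pi.single j (1 : ℤ) : Fin d → ℤ) i : ℤ) : ℝ)) =
        fun i => B i j := by
      funext i
      simp only [Matrix.mulVec, dotProduct]
      rw [Finset.sum_eq_single j]
      · simp
      · intro b _ hb
        simp [hb]
      · simp
    rw [h3] at h2
    obtain ⟨z, hz⟩ := h h2
    exact ⟨z, hz⟩
  choose z hz using h1
  refine ⟨fun i j => z j i, ?_⟩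
  ext i j
  have := congrFun (hz j) i
  rw [← this]
  simp only [re, Matrix.mul_apply, Matrix.mulVec, dotProduct]
  rfl

/-- Two matrices of the same lattice differ by a unimodular integer matrix. -/
theorem exists_unimodular {d : ℕ} {A B : Matrix (Fin d) (Fin d) ℝ} (hA : A.det ≠ 0)
    (h : lattice B = lattice A) :
    ∃ U W : Matrix (Fin d) (Fin d) ℤ, U * W = 1 ∧ W * U = 1 ∧ B = A * re U := by
  obtain ⟨U, hU⟩ := exists_of_subset h.subset
  obtain ⟨W, hW⟩ := exists_of_subset h.symm.subset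
  have h1 : A * 1 = A * re (U * W) := by
    rw [re_mul, ← Matrix.mul_assoc, ← hU, ← hW, Matrix.mul_one]
  have hu : IsUnit A := (Matrix.isUnit_iff_isUnit_det A).2 (isUnit_iff_ne_zero.2 hA)
  have h2 : (1 : Matrix (Fin d) (Fin d) ℝ) = re (U * W) := hu.mul_left_cancel h1
  have h3 : U * W = 1 := re_inj (by rw [← h2, re_one])
  exact ⟨U, W, h3, mul_eq_one_comm.1 h3, hU⟩

theorem lattice_mul {d : ℕ} (A : Matrix (Fin d) (Fin d) ℝ) {U W : Matrix (Fin d) (Fin d) ℤ}
    (h : U * W = 1) : lattice (A * re U) = lattice A := by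
  apply Set.Subset.antisymm
  · rintro _ ⟨z, rfl⟩
    refine ⟨U.mulVec z, ?_⟩
    show A.mulVec _ = (A * re U).mulVec _
    rw [← Matrix.mulVec_mulVec, re_mulVec]
  · rintro _ ⟨z, rfl⟩
    refine ⟨W.mulVec z, ?_⟩
    show (A * re U).mulVec _ = A.mulVec _
    rw [← Matrix.mulVec_mulVec, re_mulVec, Matrix.mulVec_mulVec, h, Matrix.one_mulVec]

/-- **Ehrhart's volume conjecture** for all lattices, with the cases of equality. -/
theorem result (d : ℕ) (hd : 1 ≤ d) (A : Matrix (Fin d) (Fin d) ℝ) (hA : A.det ≠ 0)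
    (K : Set (Fin d → ℝ)) (hK : IsCompact K) (hc : Convex ℝ K) (hne : (interior K).Nonempty)
    (hz : centroid K = 0) (hL : interior K ∩ lattice A = {0}) :
    (volume K).toReal ≤ ((d : ℝ) + 1) ^ d / (d.factorial : ℝ) * |A.det| ∧
    ((volume K).toReal = ((d : ℝ) + 1) ^ d / (d.factorial : ℝ) * |A.det| ↔
      ∃ B : Matrix (Fin d) (Fin d) ℝ, lattice B = lattice A ∧
        K = B.mulVec '' simplex d) := by
  classical
  set T : (Fin d → ℝ) →ₗ[ℝ] (Fin d → ℝ) := Matrix.toLin' A with hT
  have hTx : ∀ x, T x = A.mulVec x := fun x => Matrix.toLin'_apply A x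
  have hdetT : LinearMap.det T = A.det := LinearMap.det_toLin' A
  have hdet : LinearMap.det T ≠ 0 := by rw [hdetT]; exact hA
  have hAu : IsUnit A := (Matrix.isUnit_iff_isUnit_det A).2 (isUnit_iff_ne_zero.2 hA)
  have hAdu : IsUnit A.det := isUnit_iff_ne_zero.2 hA
  have hpos : 0 < |A.det| := abs_pos.2 hA
  -- the homeomorphism
  let e : (Fin d → ℝ) ≃L[ℝ] (Fin d → ℝ) := (LinearMap.equivOfDetNeZero T hdet).toContinuousLinearEquiv
  have he : ∀ x, e x = T x := fun x => rfl
  have hpre : (T : (Fin d → ℝ) → (Fin d → ℝ)) ⁻¹' K = e ⁻¹' K := rfl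
  set K' : Set (Fin d → ℝ) := e ⁻¹' K with hK'
  have c1 : IsCompact K' := e.toHomeomorph.isCompact_preimage.2 hK
  have c2 : Convex ℝ K' := hc.linear_preimage T
  have c3 : interior K' = e ⁻¹' interior K := (e.toHomeomorph.preimage_interior K).symm
  have hmem0 : (0 : Fin d → ℝ) ∈ interior K ∩ lattice A := by rw [hL]; rfl
  have c4 : (0 : Fin d → ℝ) ∈ interior K' := by
    rw [c3]
    show e 0 ∈ interior K
    rw [map_zero]
    exact hmem0.1
  have c5 : ∀ z : Fin d → ℤ, (fun i => (z i : ℝ)) ∈ interior K' → z = 0 := by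
    intro z hz1
    rw [c3] at hz1
    have h1 : A.mulVec (fun i => (z i : ℝ)) ∈ interior K ∩ lattice A :=
      ⟨by have h2 : e (fun i => (z i : ℝ)) ∈ interior K := hz1
          rw [he, hTx] at h2
          exact h2, ⟨z, rfl⟩⟩
    rw [hL] at h1
    have h2 : e (fun i => (z i : ℝ)) = 0 := by rw [he, hTx]; exact h1
    have h3 := (map_eq_zero_iff e e.injective).1 h2
    funext i
    have h4 := congrFun h3 i
    simp only [Pi.zero_apply] at h4 ⊢
    exact_mod_cast h4
  -- volumes
  have hv : volume K' = ENNReal.ofReal |(LinearMap.det T)⁻¹| * volume K := by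
    rw [← hpre]
    exact Measure.addHaar_preimage_linearMap volume hdet K
  have hvr : volume.real K' = |A.det|⁻¹ * (volume K).toReal := by
    rw [measureReal_def, hv, ENNReal.toReal_mul, ENNReal.toReal_ofReal (abs_nonneg _), hdetT,
      abs_inv]
  have hVpos : 0 < (volume K).toReal := by
    have h1 : 0 < volume K := (isOpen_interior.measure_pos volume hne).trans_le
      (measure_mono interior_subset)
    exact ENNReal.toReal_pos h1.ne' hK.measure_lt_top.ne
  -- the centroid
  have hI : (∫ x in K, x) = 0 := by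
    rcases smul_eq_zero.1 hz with h | h
    · exact absurd h (inv_ne_zero hVpos.ne')
    · exact h
  have hint : Integrable (fun x : Fin d → ℝ => x) (volume.restrict K') :=
    (continuous_id.continuousOn).integrableOn_compact c1
  have hcv : (∫ x in K', e x) = 0 := by
    have h1 : Measure.map T volume = ENNReal.ofReal |(LinearMap.det T)⁻¹| • (volume : Measure (Fin d → ℝ)) :=
      Measure.map_linearMap_addHaar_eq_smul_addHaar volume hdet
    have hme : MeasurableEmbedding (T : (Fin d → ℝ) → (Fin d → ℝ)) :=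
      e.toHomeomorph.measurableEmbedding
    have h2 : (∫ x in K', e x) = ∫ y in K, y ∂(Measure.map T volume) := by
      rw [hme.setIntegral_map]
      rfl
    rw [h2, h1, Measure.restrict_smul, integral_smul_measure, hI, smul_zero]
  have hI' : (∫ x in K', x) = 0 := by
    have h1 : (e : (Fin d → ℝ) →L[ℝ] (Fin d → ℝ)) (∫ x in K', x) = ∫ x in K', e x :=
      ((e : (Fin d → ℝ) →L[ℝ] (Fin d → ℝ)).integral_comp_comm hint).symm
    rw [hcv] at h1
    exact (map_eq_zero_iff e e.injective).1 h1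
  have hz' : ∀ i, ∫ x in K', x i = 0 := by
    intro i
    rw [← Pool.Agent.H912R3.Ehr.eval_int c1, hI']
    rfl
  have hb := Pool.Agent.H912R3.Ehr.ehrhart_int hd c1 c2 hz' c4 c5
  refine ⟨?_, fun h => ?_, ?_⟩
  · rw [hvr, inv_mul_le_iff₀ hpos] at hb
    linarith
  · have h1 : volume.real K' = ((d : ℝ) + 1) ^ d / d.factorial := by
      rw [hvr, h]
      field_simp
    obtain ⟨U, hU, hKU⟩ := Pool.Agent.H912R3.Ehr.core_eq hd c1 c2 hz' c4 c5 h1
    have hUW : U⁻¹ * U = 1 := Matrix.nonsing_inv_mul U hU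
    have hWU : U * U⁻¹ = 1 := Matrix.mul_nonsing_inv U hU
    refine ⟨A * re U⁻¹, lattice_mul A hUW, ?_⟩
    ext x
    constructor
    · intro hx
      obtain ⟨y, rfl⟩ := e.surjective x
      have hy : y ∈ K' := hx
      rw [hKU] at hy
      refine ⟨(re U).mulVec y, ?_, ?_⟩
      · rw [mem_simplex_iff]
        exact hy
      · rw [Matrix.mulVec_mulVec, Matrix.mul_assoc, ← re_mul, hUW, re_one, Matrix.mul_one, he, hTx]
    · rintro ⟨w, hw, rfl⟩
      have h2 : (re U⁻¹).mulVec w ∈ K' := by
        rw [hKU]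
        rw [mem_simplex_iff] at hw
        have h3 : (re U).mulVec ((re U⁻¹).mulVec w) = w := by
          rw [Matrix.mulVec_mulVec, ← re_mul, hWU, re_one, Matrix.one_mulVec]
        have h4 : (fun i => (re U).mulVec ((re U⁻¹).mulVec w) i + 1) ∈
            Pool.Agent.H912R3.Ehr.Tx d (d + 1) := by
          rw [h3]; exact hw
        exact h4
      have h5 : e ((re U⁻¹).mulVec w) ∈ K := h2
      rw [he, hTx, Matrix.mulVec_mulVec] at h5
      exact h5
  · rintro ⟨B, hB, hKB⟩
    obtain ⟨U, W, hUW, hWU, hBU⟩ := exists_unimodular hA hB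
    have hWu : IsUnit W.det :=
      (Matrix.isUnit_iff_isUnit_det W).1 ⟨⟨W, U, hWU, hUW⟩, rfl⟩
    have himg : (fun x : Fin d → ℝ => fun i => ∑ j, (W i j : ℝ) * x j +
        (((fun _ => 1 : Fin d → ℤ) i : ℤ) : ℝ)) '' K' = Pool.Agent.H912R3.Ehr.Tx d (d + 1) := by
      apply Set.Subset.antisymm
      · rintro _ ⟨x, hx, rfl⟩
        have h1 : e x ∈ K := hx
        rw [hKB] at h1
        obtain ⟨w, hw, hwx⟩ := h1
        have h2 : e x = e ((re U).mulVec w) := by
          rw [← hwx, he, hTx, hBU, Matrix.mulVec_mulVec]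
        have h3 := e.injective h2
        rw [mem_simplex_iff] at hw
        have h4 : (re W).mulVec x = w := by
          rw [h3, Matrix.mulVec_mulVec, ← re_mul, hWU, re_one, Matrix.one_mulVec]
        have h5 : (fun i => ∑ j, (W i j : ℝ) * x j + (((fun _ => 1 : Fin d → ℤ) i : ℤ) : ℝ)) =
            fun i => w i + 1 := by
          funext i
          have := congrFun h4 i
          simp only [Int.cast_one]
          rw [← this]
          rfl
        show (fun i => ∑ j, (W i j : ℝ) * x j + (((fun _ => 1 : Fin d → ℤ) i : ℤ) : ℝ)) ∈ _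
        rw [h5]
        exact hw
      · intro y hy
        refine ⟨(re U).mulVec (fun i => y i - 1), ?_, ?_⟩
        · show e _ ∈ K
          rw [hKB]
          refine ⟨fun i => y i - 1, ?_, ?_⟩
          · rw [mem_simplex_iff]
            simpa using hy
          · rw [hBU, he, hTx, Matrix.mulVec_mulVec]
        · have h4 : (re W).mulVec ((re U).mulVec (fun i => y i - 1)) = fun i => y i - 1 := by
            rw [Matrix.mulVec_mulVec, ← re_mul, hWU, re_one, Matrix.one_mulVec]
          funext i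
          have h5 := congrFun h4 i
          have h6 : ∑ j, (W i j : ℝ) * (re U).mulVec (fun i => y i - 1) j = y i - 1 := h5
          simp only [Int.cast_one]
          rw [h6]
          ring
    have h7 := (Pool.Agent.H912R3.Ehr.converse c1 c5 hWu himg).2
    rw [hvr] at h7
    rw [inv_mul_eq_iff_eq_mul₀ hpos.ne'] at h7
    rw [h7]
    ring

end Pool.Agent.Results.MP_4c844b_co.EhrhartAllLattices
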